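import Mathlib

set_option autoImplicit false

namespace Pool.Agent.Results.MP_ab2d80_co.LogLinear

open Finset

/-- `D` contains a subdivision of the subdigraph of `F` induced on `S`. -/
def HasSub {k n : ℕ} (F : Digraph (Fin k)) (S : Finset (Fin k)) (D : Digraph (Fin n)) : Prop :=
  ∃ φ : Fin k → Fin n, ∃ ℓ : Fin k → Fin k → ℕ, ∃ p : Fin k → Fin k → ℕ → Fin n,
    (∀ a ∈ S, ∀ b ∈ S, φ a = φ b → a = b) ∧
    (∀ u ∈ S, ∀ v ∈ S, F.Adj u v →
      1 ≤ ℓ u v ∧ p u v 0 = φ u ∧ p u v (ℓ u v) = φ v ∧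
      (∀ i, i < ℓ u v → D.Adj (p u v i) (p u v (i + 1))) ∧
      (∀ i, 0 < i → i < ℓ u v → ∀ w ∈ S, p u v i ≠ φ w) ∧
      (∀ u' ∈ S, ∀ v' ∈ S, F.Adj u' v' → ∀ i j, 0 < i → i < ℓ u v → 0 < j →
        j < ℓ u' v' → p u v i = p u' v' j → u = u' ∧ v = v' ∧ i = j))

/-- Every loopless digraph of dichromatic number at least `t` (not partitionable into `t - 1`
acyclic sets) contains a subdivision of the subdigraph of `F` induced on `S`. -/
def Forces {k : ℕ} (F : Digraph (Fin k)) (S : Finset (Fin k)) (t : ℕ) : Prop :=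
  ∀ n : ℕ, ∀ D : Digraph (Fin n), (∀ v, ¬ D.Adj v v) →
    (¬ ∃ c : Fin n → Fin (t - 1), ∃ f : Fin n → ℕ,
        ∀ u v, D.Adj u v → c u = c v → f u < f v) → HasSub F S D

lemma cnt {I : Type} [Fintype I] [DecidableEq I] (P : Finset I) (x y : ℕ) :
    (∑ ω : I → Bool, ∏ i ∈ P, (if ω i then x else y)) * 2 ^ P.card
      = 2 ^ Fintype.card I * (x + y) ^ P.card := by
  have h1 : ∀ ω : I → Bool, ∏ i ∈ P, (if ω i then x else y)
      = ∏ i, (if i ∈ P then (if ω i then x else y) else 1) := by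
    intro ω; rw [prod_ite_mem, univ_inter]
  simp_rw [h1]
  have h2 := Finset.prod_univ_sum (fun _ : I => (univ : Finset Bool))
    (fun i b => if i ∈ P then (if b then x else y) else 1)
  rw [Fintype.piFinset_univ] at h2
  rw [← h2]
  have h3 : (2 : ℕ) ^ P.card = ∏ i, (if i ∈ P then 2 else 1) := by
    rw [prod_ite_mem, univ_inter, prod_const]
  have h4 : (x + y) ^ P.card = ∏ i, (if i ∈ P then x + y else 1) := by
    rw [prod_ite_mem, univ_inter, prod_const]
  have h5 : (2 : ℕ) ^ Fintype.card I = ∏ _i : I, 2 := by simp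
  rw [h3, h4, h5, ← prod_mul_distrib, ← prod_mul_distrib]
  refine prod_congr rfl fun i _ => ?_
  by_cases h : i ∈ P <;> simp [h, mul_comm]

lemma allFalse {I : Type} [Fintype I] [DecidableEq I] (P : Finset I) :
    (univ.filter fun ω : I → Bool => ∀ i ∈ P, ω i = false).card * 2 ^ P.card
      ≤ 2 ^ Fintype.card I := by
  have := cnt P 0 1
  simp only [zero_add, one_pow, mul_one] at this
  rw [← this]
  refine Nat.mul_le_mul_right _ ?_
  rw [card_filter]
  refine sum_le_sum fun ω _ => ?_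
  split_ifs with h
  · rw [prod_congr rfl (g := fun _ => 1)]
    · simp
    · intro i hi; simp [h i hi]
  · exact Nat.zero_le _

lemma fewFalse {I : Type} [Fintype I] [DecidableEq I] (P : Finset I) (s : ℕ) :
    (univ.filter fun ω : I → Bool => (P.filter fun i => ω i = false).card ≤ s).card
      * 3 ^ P.card ≤ 2 ^ Fintype.card I * 2 ^ P.card * 3 ^ s := by
  have h := cnt P 3 1
  have h4 : (3 + 1 : ℕ) ^ P.card = 2 ^ P.card * 2 ^ P.card := by rw [← mul_pow]; norm_num
  rw [h4, ← mul_assoc] at h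
  have h' := Nat.eq_of_mul_eq_mul_right (by positivity) h
  rw [← h', card_filter, sum_mul, sum_mul]
  refine sum_le_sum fun ω _ => ?_
  split_ifs with hs
  · rw [one_mul, prod_ite, prod_const, prod_const, one_pow, mul_one, ← pow_add]
    refine Nat.pow_le_pow_right (by norm_num) ?_
    have := card_filter_add_card_filter_not (s := P) (fun i => ω i = true)
    have e : (P.filter fun i => ¬ ω i = true) = P.filter fun i => ω i = false := by
      simp
    rw [e] at this
    omega
  · simp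

lemma exists_good (N a k q ℓ : ℕ) (hN : N ≤ 2 ^ ℓ) (ha : a = 2 * ℓ + 5)
    (hq : ℓ * k + 2 * N + 2 ≤ q) (P : (Fin k → Fin N) → Finset (Fin N × Fin N)) :
    ∃ ω : Fin N × Fin N → Bool,
      (∀ A : Finset (Fin N), A.card = a → ∃ u ∈ A, ∃ v ∈ A, u < v ∧ ω (u, v) = true) ∧
      (∀ φ, (P φ).card = 2 * q → N < ((P φ).filter fun i => ω i = false).card) := by
  classical
  set T := 2 ^ Fintype.card (Fin N × Fin N) with hT
  let B1 : Finset (Fin N) → Finset (Fin N × Fin N → Bool) := fun A =>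
    univ.filter fun ω => ∀ i ∈ (A ×ˢ A).filter (fun x => x.1 < x.2), ω i = false
  let B2 : (Fin k → Fin N) → Finset (Fin N × Fin N → Bool) := fun φ =>
    univ.filter fun ω => ((P φ).filter fun i => ω i = false).card ≤ N
  let U1 := (powersetCard a (univ : Finset (Fin N))).biUnion B1
  let U2 := (univ.filter fun φ => (P φ).card = 2 * q).biUnion B2
  have h1 : U1.card * 4 ≤ T := by
    have hc : ∀ A ∈ powersetCard a (univ : Finset (Fin N)), (B1 A).card * 2 ^ a.choose 2 ≤ T := by
      intro A hA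
      have := allFalse ((A ×ˢ A).filter (fun x => x.1 < x.2))
      rw [card_product_filter_lt, (mem_powersetCard.1 hA).2] at this
      exact this
    have hs : U1.card * 2 ^ a.choose 2 ≤ N.choose a * T := by
      calc U1.card * 2 ^ a.choose 2
          ≤ (∑ A ∈ powersetCard a (univ : Finset (Fin N)), (B1 A).card) * 2 ^ a.choose 2 :=
            Nat.mul_le_mul_right _ card_biUnion_le
        _ = ∑ A ∈ powersetCard a (univ : Finset (Fin N)), (B1 A).card * 2 ^ a.choose 2 :=
            sum_mul _ _ _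
        _ ≤ ∑ _A ∈ powersetCard a (univ : Finset (Fin N)), T := sum_le_sum hc
        _ = N.choose a * T := by simp
    have hch : a.choose 2 = a * (ℓ + 2) := by
      rw [Nat.choose_two_right, ha]
      have : 2 * ℓ + 5 - 1 = 2 * (ℓ + 2) := by omega
      rw [this, mul_left_comm, Nat.mul_div_cancel_left _ (by norm_num)]
    have hb : N.choose a * 4 ≤ 2 ^ a.choose 2 := by
      calc N.choose a * 4 ≤ (2 ^ ℓ) ^ a * 2 ^ 2 :=
            Nat.mul_le_mul ((Nat.choose_le_pow N a).trans (Nat.pow_le_pow_left hN a)) (by norm_num)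
        _ = 2 ^ (ℓ * a + 2) := by rw [← pow_mul, ← pow_add]
        _ ≤ 2 ^ a.choose 2 := Nat.pow_le_pow_right (by norm_num) (by rw [hch]; nlinarith)
    have : U1.card * 4 * 2 ^ a.choose 2 ≤ T * 2 ^ a.choose 2 := by nlinarith
    exact Nat.le_of_mul_le_mul_right this (by positivity)
  have h2 : U2.card * 4 ≤ T := by
    have hc : ∀ φ ∈ (univ.filter fun φ => (P φ).card = 2 * q),
        (B2 φ).card * 9 ^ q ≤ T * 4 ^ q * 3 ^ N := by
      intro φ hφ
      have := fewFalse (P φ) N
      rw [(mem_filter.1 hφ).2, pow_mul, pow_mul] at this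
      exact this
    have hs : U2.card * 9 ^ q ≤ N ^ k * (T * 4 ^ q * 3 ^ N) := by
      calc U2.card * 9 ^ q
          ≤ (∑ φ ∈ (univ.filter fun φ => (P φ).card = 2 * q), (B2 φ).card) * 9 ^ q :=
            Nat.mul_le_mul_right _ card_biUnion_le
        _ = ∑ φ ∈ (univ.filter fun φ => (P φ).card = 2 * q), (B2 φ).card * 9 ^ q :=
            sum_mul _ _ _
        _ ≤ ∑ _φ ∈ (univ.filter fun φ => (P φ).card = 2 * q), T * 4 ^ q * 3 ^ N := sum_le_sum hc
        _ ≤ N ^ k * (T * 4 ^ q * 3 ^ N) := by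
            rw [sum_const, smul_eq_mul]
            refine Nat.mul_le_mul_right _ ((card_filter_le _ _).trans ?_)
            simp
    have hb : N ^ k * 3 ^ N * 4 ≤ 2 ^ q := by
      calc N ^ k * 3 ^ N * 4 ≤ (2 ^ ℓ) ^ k * (2 ^ 2) ^ N * 2 ^ 2 :=
            Nat.mul_le_mul (Nat.mul_le_mul (Nat.pow_le_pow_left hN k)
              (Nat.pow_le_pow_left (by norm_num) N)) (by norm_num)
        _ = 2 ^ (ℓ * k + 2 * N + 2) := by rw [← pow_mul, ← pow_mul, ← pow_add, ← pow_add]
        _ ≤ 2 ^ q := Nat.pow_le_pow_right (by norm_num) hq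
    have h9 : 2 ^ q * 4 ^ q ≤ 9 ^ q := by
      rw [← mul_pow]; exact Nat.pow_le_pow_left (by norm_num) q
    have : U2.card * 4 * 9 ^ q ≤ T * 9 ^ q := by
      calc U2.card * 4 * 9 ^ q = U2.card * 9 ^ q * 4 := by ring
        _ ≤ N ^ k * (T * 4 ^ q * 3 ^ N) * 4 := Nat.mul_le_mul_right _ hs
        _ = T * ((N ^ k * 3 ^ N * 4) * 4 ^ q) := by ring
        _ ≤ T * (2 ^ q * 4 ^ q) := Nat.mul_le_mul_left _ (Nat.mul_le_mul_right _ hb)
        _ ≤ T * 9 ^ q := Nat.mul_le_mul_left _ h9
    exact Nat.le_of_mul_le_mul_right this (by positivity)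
  have hlt : (U1 ∪ U2).card < (univ : Finset (Fin N × Fin N → Bool)).card := by
    have : (univ : Finset (Fin N × Fin N → Bool)).card = T := by simp [hT]
    have hp : 0 < T := by positivity
    have := card_union_le U1 U2
    omega
  obtain ⟨ω, -, hω⟩ := exists_mem_notMem_of_card_lt_card hlt
  rw [mem_union, not_or] at hω
  refine ⟨ω, fun A hA => ?_, fun φ hφ => ?_⟩
  · by_contra hc
    apply hω.1
    refine mem_biUnion.2 ⟨A, mem_powersetCard.2 ⟨subset_univ _, hA⟩, ?_⟩
    refine mem_filter.2 ⟨mem_univ _, fun i hi => ?_⟩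
    rw [mem_filter, mem_product] at hi
    by_contra hf
    exact hc ⟨i.1, hi.1.1, i.2, hi.1.2, hi.2, by simpa using hf⟩
  · by_contra hc
    apply hω.2
    exact mem_biUnion.2 ⟨φ, mem_filter.2 ⟨mem_univ _, hφ⟩,
      mem_filter.2 ⟨mem_univ _, not_lt.1 hc⟩⟩

lemma main (k t : ℕ) (F : Digraph (Fin k)) (hF : ∀ v, ¬ F.Adj v v) (H : Forces F univ t) :
    {q : Fin k × Fin k | F.Adj q.1 q.2}.ncard ≤ 200 * (k + t) * (Nat.log 2 (k + t) + 1) := by
  classical
  by_contra hcon
  push Not at hcon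
  set M := k + t with hM
  set L := Nat.log 2 M + 1 with hL
  have hML : M < 2 ^ L := Nat.lt_pow_succ_log_self (by norm_num) M
  let E := univ.filter fun q : Fin k × Fin k => F.Adj q.1 q.2
  have hE : {q : Fin k × Fin k | F.Adj q.1 q.2}.ncard = E.card := by
    rw [← Set.ncard_coe_finset]; congr 1; ext q; simp [E]
  rw [hE] at hcon
  have hk : 1 ≤ k := by
    rcases Nat.eq_zero_or_pos k with h | h
    · subst h
      have : E.card ≤ 0 := (card_le_univ _).trans (by simp)
      omega
    · exact h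
  obtain ⟨E', hE1, hE2, hE3⟩ : ∃ E' : Finset (Fin k × Fin k), E' ⊆ E ∧
      E'.card = 2 * (50 * M * L) ∧ ∀ e ∈ E', ∀ e' ∈ E', ¬ (e.1 = e'.2 ∧ e.2 = e'.1) := by
    have := card_filter_add_card_filter_not (s := E) (fun e => e.1 < e.2)
    by_cases h : 2 * (50 * M * L) ≤ (E.filter fun e => e.1 < e.2).card
    · obtain ⟨E', h1, h2⟩ := exists_subset_card_eq h
      refine ⟨E', h1.trans (filter_subset _ _), h2, fun e he e' he' hh => ?_⟩
      have a1 := (mem_filter.1 (h1 he)).2
      have a2 := (mem_filter.1 (h1 he')).2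
      rw [hh.1, hh.2] at a1
      exact lt_asymm a1 a2
    · have h' : 2 * (50 * M * L) ≤ (E.filter fun e => ¬ e.1 < e.2).card := by nlinarith
      obtain ⟨E', h1, h2⟩ := exists_subset_card_eq h'
      refine ⟨E', h1.trans (filter_subset _ _), h2, fun e he e' he' hh => ?_⟩
      have a1 := (mem_filter.1 (h1 he)).2
      have a2 := (mem_filter.1 (h1 he')).2
      have a3 := (mem_filter.1 (mem_filter.1 (h1 he)).1).2
      rw [hh.1, hh.2] at a1 a3
      have : e'.1 = e'.2 := le_antisymm (not_lt.1 a1) (not_lt.1 a2)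
      rw [this] at a3
      exact hF _ a3
  have hL1 : 1 ≤ L := by omega
  have hM1 : 1 ≤ M := by omega
  have hN : 20 * M * L ≤ 2 ^ (2 * L + 5) := by
    have : L < 2 ^ L := Nat.lt_two_pow_self
    have e : 2 ^ (2 * L + 5) = 32 * (2 ^ L * 2 ^ L) := by ring
    rw [e]; nlinarith [Nat.mul_le_mul hML.le this.le]
  let key : (Fin k → Fin (20 * M * L)) → Fin k × Fin k → Fin (20 * M * L) × Fin (20 * M * L) :=
    fun φ e => (min (φ e.1) (φ e.2), max (φ e.1) (φ e.2))
  obtain ⟨ω, hω1, hω2⟩ := exists_good (20 * M * L) (2 * (2 * L + 5) + 5) k (50 * M * L)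
    (2 * L + 5) hN rfl (by nlinarith) (fun φ => E'.image (key φ))
  let D : Digraph (Fin (20 * M * L)) := ⟨fun u v => u ≠ v ∧ ω (min u v, max u v) = true⟩
  obtain ⟨φ, ℓ, p, hinj, hp⟩ := H _ D (fun v h => h.1 rfl) (by
    rintro ⟨c, f, hc⟩
    have hlt : (univ : Finset (Fin (t - 1))).card * (2 * (2 * L + 5) + 5)
        < (univ : Finset (Fin (20 * M * L))).card := by
      simp only [card_univ, Fintype.card_fin]
      have : t - 1 < M := by omega
      nlinarith
    obtain ⟨y, -, hy⟩ := exists_lt_card_fiber_of_mul_lt_card_of_maps_to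
      (f := c) (fun a _ => mem_univ (c a)) hlt
    obtain ⟨A, hA1, hA2⟩ := exists_subset_card_eq hy.le
    obtain ⟨u, hu, v, hv, huv, hw⟩ := hω1 A hA2
    have cu := (mem_filter.1 (hA1 hu)).2
    have cv := (mem_filter.1 (hA1 hv)).2
    have b1 := hc u v ⟨huv.ne, by rw [min_eq_left huv.le, max_eq_right huv.le]; exact hw⟩
      (cu.trans cv.symm)
    have b2 := hc v u ⟨huv.ne', by rw [min_eq_right huv.le, max_eq_left huv.le]; exact hw⟩
      (cv.trans cu.symm)
    omega)
  have hi : ∀ a b, φ a = φ b → a = b := fun a b => hinj a (mem_univ _) b (mem_univ _)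
  have hkey : Set.InjOn (key φ) E' := by
    intro e he e' he' h
    simp only [key, Prod.mk.injEq] at h
    have hne := hE3 e he e' he'
    rcases le_total (φ e.1) (φ e.2) with h1 | h1 <;> rcases le_total (φ e'.1) (φ e'.2) with h2 | h2
    · rw [min_eq_left h1, max_eq_right h1, min_eq_left h2, max_eq_right h2] at h
      exact Prod.ext (hi _ _ h.1) (hi _ _ h.2)
    · rw [min_eq_left h1, max_eq_right h1, min_eq_right h2, max_eq_left h2] at h
      exact absurd ⟨hi _ _ h.1, hi _ _ h.2⟩ hne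
    · rw [min_eq_right h1, max_eq_left h1, min_eq_left h2, max_eq_right h2] at h
      exact absurd ⟨hi _ _ h.2, hi _ _ h.1⟩ hne
    · rw [min_eq_right h1, max_eq_left h1, min_eq_right h2, max_eq_left h2] at h
      exact Prod.ext (hi _ _ h.2) (hi _ _ h.1)
  have h3 := hω2 φ (by rw [card_image_of_injOn hkey, hE2])
  rw [filter_image] at h3
  have h4 := h3.trans_le card_image_le
  have h5 : (E'.filter fun e => ω (key φ e) = false).card
      ≤ (univ : Finset (Fin (20 * M * L))).card := by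
    have hl : ∀ e ∈ E'.filter fun e => ω (key φ e) = false, F.Adj e.1 e.2 ∧ 1 < ℓ e.1 e.2 := by
      intro e he
      rw [mem_filter] at he
      have ha := (mem_filter.1 (hE1 he.1)).2
      obtain ⟨a1, a2, a3, a4, -⟩ := hp e.1 (mem_univ _) e.2 (mem_univ _) ha
      refine ⟨ha, ?_⟩
      by_contra hh
      have e1 : ℓ e.1 e.2 = 1 := by omega
      have := (a4 0 (by omega)).2
      rw [e1] at a3
      rw [zero_add, a2, a3] at this
      have h6 := he.2
      simp only [key] at h6
      rw [this] at h6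
      exact absurd h6 (by simp)
    refine card_le_card_of_injOn (fun e => p e.1 e.2 1) (fun _ _ => mem_univ _) ?_
    intro e he e' he' h
    obtain ⟨a1, a2⟩ := hl e he
    obtain ⟨b1, b2⟩ := hl e' he'
    have := (hp e.1 (mem_univ _) e.2 (mem_univ _) a1).2.2.2.2.2 e'.1 (mem_univ _) e'.2
      (mem_univ _) b1 1 1 one_pos a2 one_pos b2 h
    exact Prod.ext this.1 this.2.1
  simp only [card_univ, Fintype.card_fin] at h5
  omega

/-- If dichromatic number `t` forces a subdivision of the `k`-vertex digraph `F`, then `F` has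
`O((k+t) log (k+t))` arcs; so Mader-perfect digraphs of order `k` have `O(k log k)` arcs. -/
theorem result : ∃ C : ℕ,
    (∀ k t : ℕ, ∀ F : Digraph (Fin k), (∀ v, ¬ F.Adj v v) → Forces F univ t →
      {q : Fin k × Fin k | F.Adj q.1 q.2}.ncard ≤ C * (k + t) * (Nat.log 2 (k + t) + 1)) ∧
    (∀ k : ℕ, ∀ F : Digraph (Fin k), (∀ v, ¬ F.Adj v v) → (∀ S, Forces F S S.card) →
      {q : Fin k × Fin k | F.Adj q.1 q.2}.ncard ≤ C * k * (Nat.log 2 k + 1)) := by
  refine ⟨800, fun k t F hF H => (main k t F hF H).trans (by nlinarith), fun k F hF H => ?_⟩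
  have h := H univ
  rw [card_univ, Fintype.card_fin] at h
  refine (main k k F hF h).trans ?_
  have : Nat.log 2 (k + k) ≤ Nat.log 2 k + 1 := by
    rcases Nat.eq_zero_or_pos k with h0 | h0
    · subst h0; simp
    · rw [← mul_two, Nat.log_mul_base (by norm_num) h0.ne']
  nlinarith [Nat.mul_le_mul_left k this]

end Pool.Agent.Results.MP_ab2d80_co.LogLinear
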